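import Pool.Agent.QUD.StmtsR

/-!
Squad QUD (MP_5b0138_an), row ROT (helper75): rotation of the indices of a quadrilateral.
-/

set_option autoImplicit false

namespace Pool.Agent.QUD.H75

open MeasureTheory Complex Pool.Agent.H16Iso
open Pool.Agent.H1Gen (det CCW poly)

theorem rot_ccw (v : Fin 4 → ℂ) (h : CCW v) (j : Fin 4) : CCW (fun k => v (k + j)) := by
  have h012 := h 0 1 2 (by decide) (by decide)
  have h013 := h 0 1 3 (by decide) (by decide)
  have h023 := h 0 2 3 (by decide) (by decide)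
  have h123 := h 1 2 3 (by decide) (by decide)
  simp only [det, Complex.sub_re, Complex.sub_im] at h012 h013 h023 h123
  intro a b c hab hbc
  show 0 < det (v (b + j) - v (a + j)) (v (c + j) - v (a + j))
  simp only [det, Complex.sub_re, Complex.sub_im]
  have key : (a, b, c) ∈ ([(0, 1, 2), (0, 1, 3), (0, 2, 3), (1, 2, 3)] : List (Fin 4 × Fin 4 × Fin 4)) := by
    revert a b c
    decide
  simp only [List.mem_cons, Prod.mk.injEq, List.not_mem_nil, or_false] at key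
  rcases key with ⟨rfl, rfl, rfl⟩ | ⟨rfl, rfl, rfl⟩ | ⟨rfl, rfl, rfl⟩ | ⟨rfl, rfl, rfl⟩
  · obtain rfl | rfl | rfl | rfl : j = 0 ∨ j = 1 ∨ j = 2 ∨ j = 3 := by
      revert j; decide
    · rw [show (0 : Fin 4) + 0 = 0 from rfl, show (1 : Fin 4) + 0 = 1 from rfl, show (2 : Fin 4) + 0 = 2 from rfl]
      linarith
    · rw [show (0 : Fin 4) + 1 = 1 from rfl, show (1 : Fin 4) + 1 = 2 from rfl, show (2 : Fin 4) + 1 = 3 from rfl]
      linarith
    · rw [show (0 : Fin 4) + 2 = 2 from rfl, show (1 : Fin 4) + 2 = 3 from rfl, show (2 : Fin 4) + 2 = 0 from rfl]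
      linarith
    · rw [show (0 : Fin 4) + 3 = 3 from rfl, show (1 : Fin 4) + 3 = 0 from rfl, show (2 : Fin 4) + 3 = 1 from rfl]
      linarith
  · obtain rfl | rfl | rfl | rfl : j = 0 ∨ j = 1 ∨ j = 2 ∨ j = 3 := by
      revert j; decide
    · rw [show (0 : Fin 4) + 0 = 0 from rfl, show (1 : Fin 4) + 0 = 1 from rfl, show (3 : Fin 4) + 0 = 3 from rfl]
      linarith
    · rw [show (0 : Fin 4) + 1 = 1 from rfl, show (1 : Fin 4) + 1 = 2 from rfl, show (3 : Fin 4) + 1 = 0 from rfl]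
      linarith
    · rw [show (0 : Fin 4) + 2 = 2 from rfl, show (1 : Fin 4) + 2 = 3 from rfl, show (3 : Fin 4) + 2 = 1 from rfl]
      linarith
    · rw [show (0 : Fin 4) + 3 = 3 from rfl, show (1 : Fin 4) + 3 = 0 from rfl, show (3 : Fin 4) + 3 = 2 from rfl]
      linarith
  · obtain rfl | rfl | rfl | rfl : j = 0 ∨ j = 1 ∨ j = 2 ∨ j = 3 := by
      revert j; decide
    · rw [show (0 : Fin 4) + 0 = 0 from rfl, show (2 : Fin 4) + 0 = 2 from rfl, show (3 : Fin 4) + 0 = 3 from rfl]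
      linarith
    · rw [show (0 : Fin 4) + 1 = 1 from rfl, show (2 : Fin 4) + 1 = 3 from rfl, show (3 : Fin 4) + 1 = 0 from rfl]
      linarith
    · rw [show (0 : Fin 4) + 2 = 2 from rfl, show (2 : Fin 4) + 2 = 0 from rfl, show (3 : Fin 4) + 2 = 1 from rfl]
      linarith
    · rw [show (0 : Fin 4) + 3 = 3 from rfl, show (2 : Fin 4) + 3 = 1 from rfl, show (3 : Fin 4) + 3 = 2 from rfl]
      linarith
  · obtain rfl | rfl | rfl | rfl : j = 0 ∨ j = 1 ∨ j = 2 ∨ j = 3 := by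
      revert j; decide
    · rw [show (1 : Fin 4) + 0 = 1 from rfl, show (2 : Fin 4) + 0 = 2 from rfl, show (3 : Fin 4) + 0 = 3 from rfl]
      linarith
    · rw [show (1 : Fin 4) + 1 = 2 from rfl, show (2 : Fin 4) + 1 = 3 from rfl, show (3 : Fin 4) + 1 = 0 from rfl]
      linarith
    · rw [show (1 : Fin 4) + 2 = 3 from rfl, show (2 : Fin 4) + 2 = 0 from rfl, show (3 : Fin 4) + 2 = 1 from rfl]
      linarith
    · rw [show (1 : Fin 4) + 3 = 0 from rfl, show (2 : Fin 4) + 3 = 1 from rfl, show (3 : Fin 4) + 3 = 2 from rfl]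
      linarith

theorem rot_range (v : Fin 4 → ℂ) (j : Fin 4) : Set.range (fun k => v (k + j)) = Set.range v := by
  ext z
  constructor
  · rintro ⟨k, rfl⟩
    exact ⟨k + j, rfl⟩
  · rintro ⟨k, rfl⟩
    refine ⟨k - j, ?_⟩
    show v (k - j + j) = v k
    rw [sub_add_cancel]

theorem rot_ar (v : Fin 4 → ℂ) (j : Fin 4) : ar (fun k => v (k + j)) = ar v := by
  simp only [ar, det, Complex.sub_re, Complex.sub_im]
  obtain rfl | rfl | rfl | rfl : j = 0 ∨ j = 1 ∨ j = 2 ∨ j = 3 := by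
    revert j; decide
  · rw [show (0 : Fin 4) + 0 = 0 from rfl, show (1 : Fin 4) + 0 = 1 from rfl, show (2 : Fin 4) + 0 = 2 from rfl,
      show (3 : Fin 4) + 0 = 3 from rfl]
  · rw [show (0 : Fin 4) + 1 = 1 from rfl, show (1 : Fin 4) + 1 = 2 from rfl, show (2 : Fin 4) + 1 = 3 from rfl,
      show (3 : Fin 4) + 1 = 0 from rfl]
    ring
  · rw [show (0 : Fin 4) + 2 = 2 from rfl, show (1 : Fin 4) + 2 = 3 from rfl, show (2 : Fin 4) + 2 = 0 from rfl,
      show (3 : Fin 4) + 2 = 1 from rfl]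
    ring
  · rw [show (0 : Fin 4) + 3 = 3 from rfl, show (1 : Fin 4) + 3 = 0 from rfl, show (2 : Fin 4) + 3 = 1 from rfl,
      show (3 : Fin 4) + 3 = 2 from rfl]
    ring

theorem rot_en (v : Fin 4 → ℂ) (j i : Fin 4) : en (fun k => v (k + j)) i = en v (i + j) := by
  show ‖v (i + 1 + j) - v (i + j)‖ = ‖v (i + j + 1) - v (i + j)‖
  rw [add_right_comm i 1 j]

theorem rot_an (v : Fin 4 → ℂ) (j i : Fin 4) : an (fun k => v (k + j)) i = an v (i + j) := by
  show Real.arccos (sp (v (i + 1 + j) - v (i + j)) (v (i + 3 + j) - v (i + j)) /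
    (‖v (i + 1 + j) - v (i + j)‖ * ‖v (i + 3 + j) - v (i + j)‖)) =
    Real.arccos (sp (v (i + j + 1) - v (i + j)) (v (i + j + 3) - v (i + j)) /
    (‖v (i + j + 1) - v (i + j)‖ * ‖v (i + j + 3) - v (i + j)‖))
  rw [add_right_comm i 1 j, add_right_comm i 3 j]

theorem rot_pm (v : Fin 4 → ℂ) (j : Fin 4) : pm (fun k => v (k + j)) = pm v := by
  show en (fun k => v (k + j)) 0 + en (fun k => v (k + j)) 1 + en (fun k => v (k + j)) 2
    + en (fun k => v (k + j)) 3 = en v 0 + en v 1 + en v 2 + en v 3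
  rw [rot_en, rot_en, rot_en, rot_en]
  obtain rfl | rfl | rfl | rfl : j = 0 ∨ j = 1 ∨ j = 2 ∨ j = 3 := by
    revert j; decide
  · rw [show (0 : Fin 4) + 0 = 0 from rfl, show (1 : Fin 4) + 0 = 1 from rfl, show (2 : Fin 4) + 0 = 2 from rfl,
      show (3 : Fin 4) + 0 = 3 from rfl]
  · rw [show (0 : Fin 4) + 1 = 1 from rfl, show (1 : Fin 4) + 1 = 2 from rfl, show (2 : Fin 4) + 1 = 3 from rfl,
      show (3 : Fin 4) + 1 = 0 from rfl]
    ring
  · rw [show (0 : Fin 4) + 2 = 2 from rfl, show (1 : Fin 4) + 2 = 3 from rfl, show (2 : Fin 4) + 2 = 0 from rfl,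
      show (3 : Fin 4) + 2 = 1 from rfl]
    ring
  · rw [show (0 : Fin 4) + 3 = 3 from rfl, show (1 : Fin 4) + 3 = 0 from rfl, show (2 : Fin 4) + 3 = 1 from rfl,
      show (3 : Fin 4) + 3 = 2 from rfl]
    ring

/-- row ROT -/
theorem rot : RotStmt := by
  intro v hv j
  refine ⟨rot_ccw v hv j, ?_, rot_ar v j, rot_pm v j, fun i => ⟨rot_en v j i, rot_an v j i⟩⟩
  unfold poly
  rw [rot_range]

end Pool.Agent.QUD.H75
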